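import Pool.Agent.H539R3.BR.Fld

/-!
An exotic multiplicative function on the free algebra, over every field.

Idea. Let `L = k(t_i : i ∈ ℤ)` with the shift automorphism `σ`, and let `V` be the space of
sequences `ℤ → L`, on which `x` acts by `(x v)_i = σ (v_(i+1))` and `y` by `t_0 x`. Deform this to an
action `P` of the free algebra on `k × V`: `x (u, v) = (0, u e + x v)` and
`y (u, v) = (-τ (v_1), y v)`, where `e` is the unit sequence at `0` and `τ` is a linear functional.
For nonzero `a` there is a unique `v_a` supported in degrees `≥ 1` with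
`P a (1, -v_a) = (f a, 0)`, by the degree filtration and completeness; the same filtration shows
`f (a b) = f a f b` and `f (1 + a) = 1 + f a`, as `P b (0, w) = (0, s v_a)` can be solved with the
first coordinate equal to zero.
-/

set_option autoImplicit false

namespace Pool.Agent.Results.MP_0e398f_al.ExoticBrachymorphism

/-- For every field `k` there is a map `f` from the free associative unital algebra `k⟨x, y⟩` to `k`
with `f (1 + a) = 1 + f a` and `f (a * b) = f a * f b` for all `a, b`, and with `f x = f y = 0` and
`f (x + y) = 1`. -/
theorem result (k : Type*) [Field k] : ∃ f : FreeAlgebra k (Fin 2) → k,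
    (∀ a, f (1 + a) = 1 + f a) ∧ (∀ a b, f (a * b) = f a * f b) ∧
    f (FreeAlgebra.ι k 0) = 0 ∧ f (FreeAlgebra.ι k 1) = 0 ∧
    f (FreeAlgebra.ι k 0 + FreeAlgebra.ι k 1) = 1 :=
  H539R3.BR.exotic k

end Pool.Agent.Results.MP_0e398f_al.ExoticBrachymorphism
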